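import Pool.Agent.SemiringPieces.PartB

open Cardinal Set MvPolynomial Filter

namespace Pool.Agent.SemiringPieces

theorem continuous_ev {n : ℕ} (p : MvPolynomial (Option (Fin n)) ℚ) :
    Continuous (fun q : ℝ × (Fin n → ℝ) => aeval (fun o : Option (Fin n) => o.elim q.1 q.2) p) := by
  induction p using MvPolynomial.induction_on with
  | C a => simp only [aeval_C]; exact continuous_const
  | add p q hp hq => simp only [map_add]; exact hp.add hq
  | mul_X p j hp =>
    simp only [map_mul, aeval_X]
    refine hp.mul ?_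
    cases j with
    | none => exact continuous_fst
    | some j => exact (continuous_apply j).comp continuous_snd

section

variable {ι : Type} [LinearOrder ι] {C : ι → Set ℝ}

theorem chain_rule {n : ℕ} (E : Derivation ℚ ℝ ℝ) (p : MvPolynomial (Option (Fin n)) ℚ)
    (r : ℝ) (c : Fin n → ℝ) (h : aeval (fun o : Option (Fin n) => o.elim r c) p = 0) :
    aeval (fun o : Option (Fin n) => o.elim r c) (pderiv none p) * E r +
      ∑ j, aeval (fun o : Option (Fin n) => o.elim r c) (pderiv (some j) p) * E (c j) = 0 := by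
  have := derivation_aeval E (fun o : Option (Fin n) => o.elim r c) p
  rw [h, map_zero, Fintype.sum_option] at this
  exact this.symm

/-- The compact set of approximate witnesses. -/
def Wit (C : ι → Set ℝ) (i : ι) (ε : ℝ) (n : ℕ) (σ : Fin n → Iic i)
    (p : MvPolynomial (Option (Fin n)) ℚ) (k : Fin n) (m : ℕ) : Set (ℝ × (Fin n → ℝ)) :=
  {q | q.1 ∈ Icc ((1 : ℝ) / (m + 1)) (m + 1) ∧ (∀ j, q.2 j ∈ C (σ j)) ∧ (σ k : ι) = i ∧
    (∀ j, j ≠ k → (σ j : ι) = i → q.2 k + (1 : ℝ) / (m + 1) ≤ q.2 j) ∧
    aeval (fun o : Option (Fin n) => o.elim q.1 q.2) p = 0 ∧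
    ε * (aeval (fun o : Option (Fin n) => o.elim q.1 q.2) (pderiv (some k) p) *
      aeval (fun o : Option (Fin n) => o.elim q.1 q.2) (pderiv none p)) ≤ - (1 / (m + 1))}

theorem isCompact_wit (hC : ∀ i, IsCompact (C i)) (i : ι) (ε : ℝ) (n : ℕ) (σ : Fin n → Iic i)
    (p : MvPolynomial (Option (Fin n)) ℚ) (k : Fin n) (m : ℕ) :
    IsCompact (Wit C i ε n σ p k m) := by
  have hK : IsCompact ((Icc ((1 : ℝ) / (m + 1)) (m + 1)) ×ˢ
      (Set.pi Set.univ (fun j => C (σ j)))) :=
    isCompact_Icc.prod (isCompact_univ_pi fun j => hC _)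
  refine hK.of_isClosed_subset ?_ ?_
  · unfold Wit
    simp only [ofPred_and, ofPred_forall]
    refine IsClosed.inter ?_ (IsClosed.inter ?_ (IsClosed.inter ?_ (IsClosed.inter ?_
      (IsClosed.inter ?_ ?_))))
    · exact isClosed_Icc.preimage continuous_fst
    · exact isClosed_iInter fun j => (hC _).isClosed.preimage
        ((continuous_apply j).comp continuous_snd)
    · exact isClosed_const
    · refine isClosed_iInter fun j => isClosed_iInter fun _ => isClosed_iInter fun _ => ?_
      exact isClosed_le (((continuous_apply k).comp continuous_snd).add continuous_const)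
        ((continuous_apply j).comp continuous_snd)
    · exact isClosed_eq (continuous_ev p) continuous_const
    · exact isClosed_le (continuous_const.mul ((continuous_ev _).mul (continuous_ev _)))
        continuous_const
  · rintro q ⟨h1, h2, -⟩
    exact ⟨h1, fun j _ => h2 j⟩

variable (δ : (Σ i, C i) → Derivation ℚ ℝ ℝ)

theorem piece_eq (h1 : ∀ t, δ t (t.2 : ℝ) = 1)
    (h2 : ∀ s t, s ≠ t → δ s ((t.2 : ℝ)) = 0) (hfin : ∀ r, {t | δ t r ≠ 0}.Finite)
    (halg : ∀ r, IsAlgebraic (Algebra.adjoin ℚ
      ((fun t : (Σ i, C i) => (t.2 : ℝ)) '' {t | δ t r ≠ 0})) r)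
    (i : ι) (ε : ℝ) :
    Piece δ i ε = ⋃ (n : ℕ), ⋃ (σ : Fin n → Iic i), ⋃ (p : MvPolynomial (Option (Fin n)) ℚ),
      ⋃ (k : Fin n), ⋃ (m : ℕ), Prod.fst '' (Wit C i ε n σ p k m) := by
  ext r
  simp only [mem_iUnion, mem_image, Prod.exists, exists_and_right, exists_eq_right]
  constructor
  · rintro ⟨hr, t, ht1, ht2, ht3⟩
    have htS : δ t r ≠ 0 := by rintro h; simp [h] at ht2
    have : Finite {s | δ s r ≠ 0} := (hfin r).to_subtype
    obtain ⟨n, ⟨e⟩⟩ := Finite.exists_equiv_fin {s | δ s r ≠ 0}
    have hle : ∀ s, δ s r ≠ 0 → key t ≤ key s := fun s hs => by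
      by_contra h
      exact hs (ht3 s (not_le.1 h))
    have hle2 : ∀ s, δ s r ≠ 0 → s.1 ≤ i := fun s hs => by
      by_contra h
      have : key s < key t := key_lt.2 (Or.inl (by rw [ht1]; exact not_le.1 h))
      exact absurd (hle s hs) (not_le.2 this)
    let c : Fin n → ℝ := fun j => ((e.symm j).1.2 : ℝ)
    let σ : Fin n → Iic i := fun j => ⟨(e.symm j).1.1, hle2 _ (e.symm j).2⟩
    let k : Fin n := e ⟨t, htS⟩
    have hrange : (fun t : (Σ i, C i) => (t.2 : ℝ)) '' {t | δ t r ≠ 0} = Set.range c := by
      ext y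
      constructor
      · rintro ⟨s, hs, rfl⟩
        exact ⟨e ⟨s, hs⟩, congrArg (fun t : {s | δ s r ≠ 0} => (t.1.2 : ℝ))
          (e.symm_apply_apply ⟨s, hs⟩)⟩
      · rintro ⟨j, rfl⟩
        exact ⟨(e.symm j).1, (e.symm j).2, rfl⟩
    have ha := halg r
    rw [hrange] at ha
    obtain ⟨p, hp0, hp1⟩ := exists_relation c r ha
    have hch := chain_rule (δ t) p r c hp0
    have hek : (e.symm k).1 = t := by simp [k]
    have hckt : c k = (t.2 : ℝ) := congrArg (fun t : (Σ i, C i) => (t.2 : ℝ)) hek
    rw [Finset.sum_eq_single k] at hch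
    · have hck : δ t (c k) = 1 := by
        rw [hckt]; exact h1 t
      rw [hck, mul_one] at hch
      set A := aeval (fun o : Option (Fin n) => o.elim r c) (pderiv none p)
      set B := aeval (fun o : Option (Fin n) => o.elim r c) (pderiv (some k) p)
      have hneg : ε * (B * A) < 0 := by
        have hB : B = - (A * δ t r) := by linarith
        rw [hB]
        have : ε * (-(A * δ t r) * A) = - ((ε * δ t r) * A ^ 2) := by ring
        rw [this]
        have : 0 < A ^ 2 := by positivity
        have := mul_pos ht2 this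
        linarith
      have hlim := tendsto_one_div_add_atTop_nhds_zero_nat (𝕜 := ℝ)
      have e1 : ∀ᶠ m : ℕ in atTop, (1 : ℝ) / (m + 1) < r := hlim.eventually_lt_const hr
      have e2 : ∀ᶠ m : ℕ in atTop, r ≤ (m : ℝ) + 1 := by
        filter_upwards [eventually_ge_atTop ⌈r⌉₊] with m hm
        have := Nat.le_ceil r
        have h3 : ((⌈r⌉₊ : ℕ) : ℝ) ≤ m := by exact_mod_cast hm
        linarith
      have e3 : ∀ᶠ m : ℕ in atTop, (1 : ℝ) / (m + 1) < - (ε * (B * A)) :=
        hlim.eventually_lt_const (by linarith)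
      have e4 : ∀ᶠ m : ℕ in atTop, ∀ j, j ≠ k → (σ j : ι) = i →
          c k + (1 : ℝ) / (m + 1) ≤ c j := by
        rw [eventually_all]
        intro j
        by_cases hjk : j = k
        · exact Eventually.of_forall fun m h => absurd hjk h
        by_cases hji : (σ j : ι) = i
        swap
        · exact Eventually.of_forall fun m _ h => absurd h hji
        have hlt : c k < c j := by
          have h5 := hle _ (e.symm j).2
          rcases h5.lt_or_eq with h6 | h6
          · rw [key_lt] at h6
            rcases h6 with h6 | h6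
            · exact absurd (h6.trans_eq ht1) (not_lt.2 hji.ge)
            · rw [hckt]
              exact h6.2
          · have := key_injective h6
            exfalso
            apply hjk
            simp only [k]
            rw [← e.symm_apply_eq]
            exact Subtype.ext this.symm
        filter_upwards [hlim.eventually_lt_const (show (0 : ℝ) < c j - c k by linarith)] with m hm
          _ _
        linarith
      obtain ⟨m, hm1, hm2, hm3, hm4⟩ := (e1.and (e2.and (e3.and e4))).exists
      exact ⟨n, σ, p, k, m, c, ⟨hm1.le, hm2⟩, fun j => (e.symm j).1.2.2,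
        by simp only [σ]; rw [hek, ht1], hm4, hp0, by linarith⟩
    · intro j _ hj
      have : (e.symm j).1 ≠ t := by
        intro h
        apply hj
        simp only [k]
        rw [← e.symm_apply_eq]
        exact Subtype.ext h
      have := h2 t (e.symm j).1 this.symm
      rw [show c j = ((e.symm j).1.2 : ℝ) from rfl, this, mul_zero]
    · simp
  · rintro ⟨n, σ, p, k, m, c, ⟨hr1, hr2⟩, hc, hk, hlt, hp0, hneg⟩
    simp only at hr1 hr2 hc hk hlt hp0 hneg
    have hm : (0 : ℝ) < 1 / (m + 1) := by positivity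
    have hr : 0 < r := lt_of_lt_of_le hm hr1
    have hck : c k ∈ C i := by have := hc k; rwa [hk] at this
    set A := aeval (fun o : Option (Fin n) => o.elim r c) (pderiv none p) with hA
    set B := aeval (fun o : Option (Fin n) => o.elim r c) (pderiv (some k) p) with hB
    have hA0 : A ≠ 0 := by rintro h; rw [h] at hneg; simp at hneg; linarith
    refine ⟨hr, ⟨i, ⟨c k, hck⟩⟩, rfl, ?_, ?_⟩
    · have hch := chain_rule (δ ⟨i, ⟨c k, hck⟩⟩) p r c hp0
      rw [Finset.sum_eq_single k] at hch
      · have := h1 ⟨i, ⟨c k, hck⟩⟩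
        simp only at this
        rw [this, mul_one] at hch
        have hB : B = - (A * δ ⟨i, ⟨c k, hck⟩⟩ r) := by linarith
        rw [hB] at hneg
        have h5 : ε * (-(A * δ ⟨i, ⟨c k, hck⟩⟩ r) * A) =
          - ((ε * δ ⟨i, ⟨c k, hck⟩⟩ r) * A ^ 2) := by ring
        rw [h5] at hneg
        have h6 : 0 < (ε * δ ⟨i, ⟨c k, hck⟩⟩ r) * A ^ 2 := by linarith
        exact (pos_iff_pos_of_mul_pos h6).2 (by positivity)
      · intro j _ hj
        have hne : (⟨i, ⟨c k, hck⟩⟩ : Σ i, C i) ≠ ⟨σ j, ⟨c j, hc j⟩⟩ := by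
          intro h
          have h7 : (σ j : ι) = i := (congrArg Sigma.fst h).symm
          have h8 : c k = c j := congrArg (fun t : (Σ i, C i) => (t.2 : ℝ)) h
          have := hlt j hj h7
          linarith
        have := h2 _ _ hne
        simp only at this
        rw [this, mul_zero]
      · simp
    · intro s hs
      have hch := chain_rule (δ s) p r c hp0
      rw [Finset.sum_eq_zero, add_zero] at hch
      · exact (mul_eq_zero.1 hch).resolve_left hA0
      · intro j _
        have hne : s ≠ ⟨σ j, ⟨c j, hc j⟩⟩ := by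
          rintro rfl
          rw [key_lt] at hs
          simp only at hs
          rcases hs with hs | ⟨hs1, hs2⟩
          · exact absurd (σ j).2 (not_le.2 hs)
          · by_cases hjk : j = k
            · rw [hjk] at hs2; exact lt_irrefl _ hs2
            · have := hlt j hjk hs1
              linarith
        have := h2 _ _ hne
        simp only at this
        rw [this, mul_zero]

theorem piece_measurable (hC : ∀ i, IsCompact (C i)) (h1 : ∀ t, δ t (t.2 : ℝ) = 1)
    (h2 : ∀ s t, s ≠ t → δ s ((t.2 : ℝ)) = 0) (hfin : ∀ r, {t | δ t r ≠ 0}.Finite)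
    (halg : ∀ r, IsAlgebraic (Algebra.adjoin ℚ
      ((fun t : (Σ i, C i) => (t.2 : ℝ)) '' {t | δ t r ≠ 0})) r)
    (i : ι) [Countable (Iic i)] (ε : ℝ) : MeasurableSet (Piece δ i ε) := by
  rw [piece_eq δ h1 h2 hfin halg i ε]
  refine MeasurableSet.iUnion fun n => MeasurableSet.iUnion fun σ => ?_
  have : Countable (MvPolynomial (Option (Fin n)) ℚ) := by
    rw [← Cardinal.mk_le_aleph0_iff]
    refine (MvPolynomial.cardinalMk_le_max).trans ?_
    simp
  refine MeasurableSet.iUnion fun p => MeasurableSet.iUnion fun k =>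
    MeasurableSet.iUnion fun m => ?_
  exact ((isCompact_wit hC i ε n σ p k m).image continuous_fst).measurableSet

omit [LinearOrder ι] in
theorem piece0_measurable
    (halg : ∀ r, IsAlgebraic (Algebra.adjoin ℚ
      ((fun t : (Σ i, C i) => (t.2 : ℝ)) '' {t | δ t r ≠ 0})) r) :
    MeasurableSet (Piece0 δ) := by
  have hsub : Piece0 δ ⊆ {r : ℝ | IsAlgebraic ℚ r} := by
    rintro r ⟨-, hr⟩
    have h := halg r
    have : {t | δ t r ≠ 0} = ∅ := by ext t; simp [hr t]
    rw [this, image_empty, Algebra.adjoin_empty] at h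
    exact h.restrictScalars ℚ
  exact ((Algebraic.countable ℚ ℝ).mono hsub).measurableSet

end

/-- From a transcendence basis made of `ℵ₁` disjoint compact sets one gets a partition of `(0, ∞)`
into `ℵ₁` Borel sets closed under addition and multiplication. -/
theorem exists_partition (H : CompactTransBasis) :
    ∃ (κ : Type) (B : κ → Set ℝ), #κ = ℵ₁ ∧ IsSemiringPartition B := by
  classical
  obtain ⟨ι0, C0, hι0, hC0, hne0, hdisj0, hTB0⟩ := H
  -- reindex by the ordinal `ω₁`
  let ι : Type := (ℵ₁ : Cardinal.{0}).ord.ToType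
  have hι : #ι = ℵ₁ := by simp [ι]
  obtain ⟨f⟩ : Nonempty (ι ≃ ι0) := Cardinal.eq.1 (hι.trans hι0.symm)
  have hcount : ∀ i : ι, Countable (Iic i) := by
    intro i
    have h1 : (Iio i).Countable := by
      rw [← Cardinal.le_aleph0_iff_set_countable]
      have h := Cardinal.mk_Iio_lt i (by rw [hι]; simp [ι])
      have h2 : (ℵ₁ : Cardinal.{0}) = Order.succ ℵ₀ := Cardinal.succ_aleph0.symm
      exact Order.lt_succ_iff.1 (lt_of_lt_of_eq h (hι.trans h2))
    have h2 : Iic i ⊆ insert i (Iio i) := by
      intro j hj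
      rcases (show j ≤ i from hj).eq_or_lt with h | h
      · exact Or.inl h
      · exact Or.inr h
    exact ((h1.insert i).mono h2).to_subtype
  let C : ι → Set ℝ := fun i => C0 (f i)
  have hC : ∀ i, IsCompact (C i) := fun i => hC0 _
  have hne : ∀ i, (C i).Nonempty := fun i => hne0 _
  have hTB : IsTranscendenceBasis ℚ (fun t : (Σ i, C i) => (t.2 : ℝ)) := by
    have hinj : Function.Injective (fun t : (Σ i, C i) => (t.2 : ℝ)) := by
      rintro ⟨i, a, ha⟩ ⟨j, b, hb⟩ hab
      simp only at hab
      subst hab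
      have hij : i = j := by
        by_contra hij
        exact Set.disjoint_left.1 (hdisj0 (fun h => hij (f.injective h))) ha hb
      subst hij
      rfl
    have hrange : Set.range (fun t : (Σ i, C i) => (t.2 : ℝ)) = ⋃ i, C0 i := by
      ext y
      simp only [Set.mem_range, mem_iUnion]
      constructor
      · rintro ⟨⟨i, a, ha⟩, rfl⟩
        exact ⟨f i, ha⟩
      · rintro ⟨i, hi⟩
        obtain ⟨j, rfl⟩ := f.surjective i
        exact ⟨⟨j, ⟨y, hi⟩⟩, rfl⟩
    rw [← isTranscendenceBasis_subtype_range hinj, hrange]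
    exact hTB0
  obtain ⟨δ, h1, h2, h3, h4⟩ := exists_derivations hTB
  let B : Option (ι × Bool) → Set ℝ := fun o => o.elim (Piece0 δ)
    (fun q => Piece δ q.1 (if q.2 then 1 else -1))
  refine ⟨Option (ι × Bool), B, ?_, ?_⟩
  · have h0 : ℵ₀ ≤ ℵ₁ := Cardinal.aleph0_le_aleph 1
    rw [Cardinal.mk_option, Cardinal.mk_prod, hι, Cardinal.mk_bool, Cardinal.lift_id,
      Cardinal.lift_id, Cardinal.mul_eq_left h0 (Cardinal.ofNat_le_aleph0.trans h0)
        two_ne_zero, Cardinal.add_one_eq h0]
  · constructor
    · rintro (_ | ⟨i, b⟩)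
      · exact piece0_measurable δ h4
      · have := hcount i
        exact piece_measurable δ hC h1 (fun s t => h2 s t) h3 h4 i _
    · rintro (_ | ⟨i, b⟩)
      · exact ⟨1, one_pos, fun t => (δ t).map_one_eq_zero⟩
      · refine piece_nonempty δ h1 (fun s t => h2 s t) (hne i) ?_
        cases b <;> simp
    · rintro (_ | ⟨i, b⟩) x hx y hy
      · exact (piece0_add δ hx hy).1
      · exact (piece_add δ hx hy).1
    · rintro (_ | ⟨i, b⟩) x hx y hy
      · exact (piece0_add δ hx hy).2
      · exact (piece_add δ hx hy).2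
    · rintro (_ | ⟨i, b⟩) (_ | ⟨j, b'⟩) hne
      · exact absurd rfl hne
      · rw [Function.onFun, Set.disjoint_left]
        intro x hx hy
        exact piece_disjoint0 δ hy hx
      · rw [Function.onFun, Set.disjoint_left]
        intro x hx hy
        exact piece_disjoint0 δ hx hy
      · rw [Function.onFun, Set.disjoint_left]
        intro x hx hy
        obtain ⟨h5, h6⟩ := piece_disjoint δ hx hy
        apply hne
        subst h5
        cases b <;> cases b' <;> first | rfl | (exfalso; norm_num at h6)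
    · ext x
      simp only [mem_iUnion, mem_Ioi]
      constructor
      · rintro ⟨(_ | ⟨i, b⟩), hx⟩
        · exact hx.1
        · exact hx.1
      · intro hx
        rcases piece_cover δ h3 hx with h | ⟨i, h | h⟩
        · exact ⟨none, h⟩
        · exact ⟨some (i, true), h⟩
        · exact ⟨some (i, false), h⟩

/-- Part B: the dichotomy fails under `CompactTransBasis` and `ℵ₁ < 𝔠`. -/
theorem partB (H : CompactTransBasis) (hc : (ℵ₁ : Cardinal.{0}) < 𝔠) : ¬ Dichotomy := by
  obtain ⟨κ, B, hκ, hB⟩ := exists_partition H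
  intro hD
  rcases hD κ B hB with h | h
  · rw [hκ] at h
    have : (1 : Cardinal) < ℵ₁ := lt_of_lt_of_le Cardinal.one_lt_aleph0 (Cardinal.aleph0_le_aleph 1)
    rw [h] at this
    exact lt_irrefl _ this
  · rw [hκ] at h
    exact hc.ne h

end Pool.Agent.SemiringPieces
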