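import Mathlib

open Cardinal Set

namespace Pool.Agent.SemiringPieces

/-- A partition of `(0, ∞)` into nonempty Borel sets that are closed under addition and
multiplication, indexed by `ι` (the number of pieces is `#ι`). -/
structure IsSemiringPartition {ι : Type} (B : ι → Set ℝ) : Prop where
  measurable : ∀ i, MeasurableSet (B i)
  nonempty : ∀ i, (B i).Nonempty
  add_mem : ∀ i, ∀ x ∈ B i, ∀ y ∈ B i, x + y ∈ B i
  mul_mem : ∀ i, ∀ x ∈ B i, ∀ y ∈ B i, x * y ∈ B i
  disjoint : Pairwise (Function.onFun Disjoint B)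
  union : ⋃ i, B i = Ioi 0

/-- The statement of the problem: the number of pieces is `1` or the continuum. -/
def Dichotomy : Prop :=
  ∀ (ι : Type) (B : ι → Set ℝ), IsSemiringPartition B → #ι = 1 ∨ #ι = 𝔠

/-- `cov(M) = 𝔠`: fewer than continuum many meagre sets never cover the real line. -/
def CovMeagre : Prop :=
  ∀ (ι : Type) (M : ι → Set ℝ), (∀ i, IsMeagre (M i)) → ⋃ i, M i = Set.univ → 𝔠 ≤ #ι

/-- `cov(N) = 𝔠`: fewer than continuum many Lebesgue null sets never cover the real line. -/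
def CovNull : Prop :=
  ∀ (ι : Type) (M : ι → Set ℝ), (∀ i, MeasureTheory.volume (M i) = 0) → ⋃ i, M i = Set.univ → 𝔠 ≤ #ι

/-- There is a transcendence basis of `ℝ` over `ℚ` which is the union of `ℵ₁` pairwise disjoint
nonempty compact sets. -/
def CompactTransBasis : Prop :=
  ∃ (ι : Type) (C : ι → Set ℝ), #ι = ℵ₁ ∧ (∀ i, IsCompact (C i)) ∧ (∀ i, (C i).Nonempty) ∧
    Pairwise (Function.onFun Disjoint C) ∧
    IsTranscendenceBasis ℚ ((↑) : (⋃ i, C i : Set ℝ) → ℝ)

end Pool.Agent.SemiringPieces
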