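import Mathlib

open scoped TensorProduct
open KaehlerDifferential

namespace Pool.Agent.SemiringPieces

/-- The real numbers are formally étale over the polynomial ring on a transcendence basis. -/
theorem exists_basis {T : Type*} {x : T → ℝ} (hx : IsTranscendenceBasis ℚ x) :
    ∃ b : Module.Basis T ℝ (Ω[ℝ⁄ℚ]), ∀ t, b t = D ℚ ℝ (x t) := by
  classical
  let _ : Algebra (MvPolynomial T ℚ) ℝ := (MvPolynomial.aeval x).toAlgebra
  have : IsScalarTower ℚ (MvPolynomial T ℚ) ℝ := IsScalarTower.of_algebraMap_eq' (by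
    ext; simp)
  have hinj : Function.Injective (algebraMap (MvPolynomial T ℚ) ℝ) := hx.1
  have : FaithfulSMul (MvPolynomial T ℚ) ℝ := (faithfulSMul_iff_algebraMap_injective _ _).2 hinj
  let _ : Algebra (FractionRing (MvPolynomial T ℚ)) ℝ :=
    FractionRing.liftAlgebra (MvPolynomial T ℚ) ℝ
  have : IsScalarTower (MvPolynomial T ℚ) (FractionRing (MvPolynomial T ℚ)) ℝ :=
    FractionRing.isScalarTower_liftAlgebra _ _
  have halg0 : Algebra.IsAlgebraic (MvPolynomial T ℚ) ℝ := by
    have h := hx.isAlgebraic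
    constructor
    intro r
    obtain ⟨p, hp0, hp⟩ := h.isAlgebraic r
    have e := hx.1.aevalEquiv
    refine ⟨p.map (hx.1.aevalEquiv.symm : _ →+* MvPolynomial T ℚ), ?_, ?_⟩
    · exact (Polynomial.map_ne_zero_iff hx.1.aevalEquiv.symm.injective).2 hp0
    · rw [Polynomial.aeval_def, Polynomial.eval₂_map]
      rw [Polynomial.aeval_def] at hp
      convert hp using 2
      ext a
      obtain ⟨q, rfl⟩ := hx.1.aevalEquiv.surjective a
      simp [RingHom.algebraMap_toAlgebra]

  have : Algebra.IsAlgebraic (FractionRing (MvPolynomial T ℚ)) ℝ :=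
    (IsFractionRing.comap_isAlgebraic_iff (A := MvPolynomial T ℚ)).1 halg0

  have : Algebra.IsSeparable (FractionRing (MvPolynomial T ℚ)) ℝ := inferInstance
  have : Algebra.FormallyEtale (FractionRing (MvPolynomial T ℚ)) ℝ :=
    Algebra.FormallyEtale.of_isSeparable _ _
  have : Algebra.FormallyEtale (MvPolynomial T ℚ) (FractionRing (MvPolynomial T ℚ)) :=
    Algebra.FormallyEtale.of_isLocalization (nonZeroDivisors _)
  have : Algebra.FormallyEtale (MvPolynomial T ℚ) ℝ :=
    Algebra.FormallyEtale.comp _ (FractionRing (MvPolynomial T ℚ)) _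
  let e := tensorKaehlerEquivOfFormallyEtale ℚ (MvPolynomial T ℚ) ℝ
  refine ⟨((mvPolynomialBasis ℚ T).baseChange ℝ).map e, fun t => ?_⟩
  simp [e, RingHom.algebraMap_toAlgebra, mapBaseChange_tmul]

/-- Coordinate derivations of the reals with respect to a transcendence basis. -/
theorem exists_derivations {T : Type*} {x : T → ℝ} (hx : IsTranscendenceBasis ℚ x) :
    ∃ δ : T → Derivation ℚ ℝ ℝ,
      (∀ t, δ t (x t) = 1) ∧ (∀ s t, s ≠ t → δ s (x t) = 0) ∧
      (∀ r, {t | δ t r ≠ 0}.Finite) ∧
      (∀ r, IsAlgebraic (Algebra.adjoin ℚ (x '' {t | δ t r ≠ 0})) r) := by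
  classical
  obtain ⟨b, hb⟩ := exists_basis hx
  have hcd : ∀ t r, ((b.coord t).compDer (D ℚ ℝ)) r = b.repr (D ℚ ℝ r) t := fun _ _ => rfl
  refine ⟨fun t => (b.coord t).compDer (D ℚ ℝ), ?_, ?_, ?_, ?_⟩
  · intro t
    rw [hcd, ← hb, Module.Basis.repr_self, Finsupp.single_apply, if_pos rfl]
  · intro s t hst
    rw [hcd, ← hb, Module.Basis.repr_self, Finsupp.single_apply, if_neg (Ne.symm hst)]
  · intro r
    refine (b.repr (D ℚ ℝ r)).support.finite_toSet.subset ?_
    intro t ht
    have : b.repr (D ℚ ℝ r) t ≠ 0 := ht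
    simpa using this
  · intro r
    by_contra hna
    set S : Set T := {t | ((b.coord t).compDer (D ℚ ℝ)) r ≠ 0} with hS
    have hind : AlgebraicIndepOn ℚ id (x '' S) := by
      have h1 : AlgebraicIndependent ℚ (fun i : S => x i) :=
        hx.1.comp _ Subtype.val_injective
      have h2 := (algebraicIndependent_image (R := ℚ) (f := x) (s := S)
        hx.1.injective.injOn).1 h1
      exact h2
    have hind2 : AlgebraicIndepOn ℚ id (insert r (x '' S)) := by
      apply AlgebraicIndepOn.insert hind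
      rw [Set.image_id]
      exact hna
    obtain ⟨u, hu, hub⟩ := exists_isTranscendenceBasis_superset hind2
    obtain ⟨b', hb'⟩ := exists_basis hub
    have hru : r ∈ u := hu (Set.mem_insert _ _)
    let E : Derivation ℚ ℝ ℝ := (b'.coord ⟨r, hru⟩).compDer (D ℚ ℝ)
    have hEcd : ∀ y, E y = b'.repr (D ℚ ℝ y) ⟨r, hru⟩ := fun _ => rfl
    have hE1 : E r = 1 := by
      have h := hb' ⟨r, hru⟩
      rw [hEcd, ← h, Module.Basis.repr_self, Finsupp.single_apply, if_pos rfl]
    have hE2 : ∀ t ∈ S, E (x t) = 0 := by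
      intro t ht
      have htu : x t ∈ u := hu (Set.mem_insert_of_mem _ ⟨t, ht, rfl⟩)
      have h := hb' ⟨x t, htu⟩
      have hne : x t ≠ r := by
        rintro h
        apply hna
        rw [← h]
        exact isAlgebraic_algebraMap (⟨_, Algebra.subset_adjoin ⟨t, ht, rfl⟩⟩ :
          Algebra.adjoin ℚ (x '' S))
      have h2 : (⟨x t, htu⟩ : u) ≠ ⟨r, hru⟩ := fun h => hne (by simpa using h)
      rw [hEcd, ← h, Module.Basis.repr_self, Finsupp.single_apply, if_neg h2]
    have hsum : D ℚ ℝ r = (b.repr (D ℚ ℝ r)).sum (fun t a => a • D ℚ ℝ (x t)) := by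
      conv_lhs => rw [← b.linearCombination_repr (D ℚ ℝ r), Finsupp.linearCombination_apply]
      simp [hb]
    have hE0 : E r = 0 := by
      have : E r = E.liftKaehlerDifferential (D ℚ ℝ r) := by simp
      rw [this, hsum, Finsupp.sum, map_sum]
      apply Finset.sum_eq_zero
      intro t ht
      rw [map_smul]
      have htS : t ∈ S := by
        have : b.repr (D ℚ ℝ r) t ≠ 0 := by simpa using ht
        exact this
      have : E.liftKaehlerDifferential (D ℚ ℝ (x t)) = 0 := by simp [hE2 t htS]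
      rw [this, smul_zero]
    rw [hE0] at hE1
    exact zero_ne_one hE1

end Pool.Agent.SemiringPieces
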