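import Pool.Agent.SemiringPieces.Defs

open Cardinal Set MeasureTheory Filter Topology

namespace Pool.Agent.SemiringPieces

theorem nsmul_mem_of_add {B : Set ℝ} (hadd : ∀ x ∈ B, ∀ y ∈ B, x + y ∈ B) {x : ℝ} (hx : x ∈ B)
    (n : ℕ) : ((n : ℝ) + 1) * x ∈ B := by
  induction n with
  | zero => simpa using hx
  | succ n ih =>
    have := hadd _ ih _ hx
    have e : ((n : ℝ) + 1) * x + x = (((n + 1 : ℕ) : ℝ) + 1) * x := by push_cast; ring
    rwa [e] at this

/-- A set of positive reals closed under addition containing an interval contains a half line. -/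
theorem halfline {B : Set ℝ} (hpos : B ⊆ Ioi 0) (hadd : ∀ x ∈ B, ∀ y ∈ B, x + y ∈ B)
    {p q : ℝ} (hpq : p < q) (h : Ioo p q ⊆ B) : ∃ N : ℝ, Ioi N ⊆ B := by
  have hp : 0 ≤ p := by
    by_contra hp
    push Not at hp
    obtain ⟨x, hx1, hx2⟩ := exists_between (show p < min q 0 from lt_min hpq hp)
    have := hpos (h ⟨hx1, hx2.trans_le (min_le_left _ _)⟩)
    exact absurd this (not_lt.2 (hx2.le.trans (min_le_right _ _)))
  have hq : 0 < q := hp.trans_lt hpq
  refine ⟨p * q / (q - p), fun y hy => ?_⟩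
  have hqp : 0 < q - p := by linarith
  have hy' : p * q < y * (q - p) := by
    have : p * q / (q - p) < y := hy
    rwa [div_lt_iff₀ hqp] at this
  have hy0 : 0 < y := by
    have : 0 ≤ p * q / (q - p) := by positivity
    exact this.trans_lt hy
  let n : ℕ := ⌊y / q⌋₊
  have hn1 : (n : ℝ) ≤ y / q := Nat.floor_le (by positivity)
  have hn2 : y / q < (n : ℝ) + 1 := Nat.lt_floor_add_one _
  have hn0 : (0 : ℝ) < (n : ℝ) + 1 := by positivity
  have hx : y / ((n : ℝ) + 1) ∈ Ioo p q := by
    constructor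
    · rw [lt_div_iff₀ hn0]
      have h1 : (n : ℝ) * q ≤ y := by rwa [le_div_iff₀ hq] at hn1
      have h2 : p * ((n : ℝ) + 1) * q < y * q := by nlinarith
      exact lt_of_mul_lt_mul_right h2 hq.le
    · rw [div_lt_iff₀ hn0]
      rw [div_lt_iff₀ hq] at hn2
      linarith
  have := nsmul_mem_of_add hadd (h hx) n
  rwa [mul_div_cancel₀ _ hn0.ne'] at this

/-- A piece containing an interval is the only piece. -/
theorem eq_of_interval {ι : Type} {B : ι → Set ℝ} (h : IsSemiringPartition B) (i : ι)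
    {p q : ℝ} (hpq : p < q) (hI : Ioo p q ⊆ B i) (j : ι) : j = i := by
  have hpos : B i ⊆ Ioi 0 := by rw [← h.union]; exact subset_iUnion B i
  have hposj : B j ⊆ Ioi 0 := by rw [← h.union]; exact subset_iUnion B j
  obtain ⟨N, hN⟩ := halfline hpos (h.add_mem i) hpq hI
  obtain ⟨x, hx⟩ := h.nonempty j
  have hx0 : 0 < x := hposj hx
  obtain ⟨n, hn⟩ := exists_nat_gt (N / x)
  have h1 := nsmul_mem_of_add (h.add_mem j) hx n
  have h2 : N < ((n : ℝ) + 1) * x := by
    rw [div_lt_iff₀ hx0] at hn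
    nlinarith
  by_contra hne
  exact Set.disjoint_left.1 (h.disjoint hne) h1 (hN h2)

theorem interval_of_not_meagre {B : Set ℝ} (hB : MeasurableSet B)
    (hadd : ∀ x ∈ B, ∀ y ∈ B, x + y ∈ B) (hm : ¬ IsMeagre B) :
    ∃ p q, p < q ∧ Ioo p q ⊆ B := by
  obtain ⟨U, hU, hBU⟩ := hB.residualEq_isOpen
  have hUne : U.Nonempty := by
    by_contra h
    rw [not_nonempty_iff_eq_empty] at h
    subst h
    apply hm
    unfold IsMeagre
    filter_upwards [hBU] with x hx
    intro hxB
    have := (eq_iff_iff.1 hx).1 hxB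
    exact this
  obtain ⟨x0, hx0⟩ := hUne
  obtain ⟨ε, hε, hball⟩ := Metric.isOpen_iff.1 hU x0 hx0
  have hM : IsMeagre (U \ B) := by
    unfold IsMeagre
    filter_upwards [hBU] with x hx
    rintro ⟨h1, h2⟩
    exact h2 ((eq_iff_iff.1 hx).2 h1)
  refine ⟨2 * x0 - ε, 2 * x0 + ε, by linarith, fun z hz => ?_⟩
  obtain ⟨hz1, hz2⟩ := hz
  let V : Set ℝ := Ioo (x0 - ε) (x0 + ε) ∩ Ioo (z - (x0 + ε)) (z - (x0 - ε))
  have hV : IsOpen V := isOpen_Ioo.inter isOpen_Ioo
  have hVne : V.Nonempty := ⟨z / 2, ⟨by constructor <;> linarith, by constructor <;> linarith⟩⟩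
  have hVm := not_isMeagre_of_isOpen hV hVne
  have hM2 : IsMeagre ((fun x => z - x) ⁻¹' (U \ B)) := by
    apply IsMeagre.preimage_of_isOpenMap (by fun_prop) _ hM
    exact (Homeomorph.subLeft z).isOpenMap
  have : ∃ x ∈ V, x ∈ B ∧ z - x ∈ B := by
    by_contra hcon
    push Not at hcon
    apply hVm
    refine (hM.union hM2).mono ?_
    rintro x ⟨hx1, hx2⟩
    have hxU : x ∈ U := hball (by rw [Real.ball_eq_Ioo]; exact hx1)
    have hzxU : z - x ∈ U := hball (by
      rw [Real.ball_eq_Ioo]; constructor <;> linarith [hx2.1, hx2.2])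
    by_cases hxB : x ∈ B
    · right
      exact ⟨hzxU, hcon x ⟨hx1, hx2⟩ hxB⟩
    · left; exact ⟨hxU, hxB⟩
  obtain ⟨x, -, hx1, hx2⟩ := this
  have := hadd _ hx1 _ hx2
  simpa using this

theorem interval_of_pos {B : Set ℝ} (hB : MeasurableSet B)
    (hadd : ∀ x ∈ B, ∀ y ∈ B, x + y ∈ B) (hm : volume B ≠ 0) :
    ∃ p q, p < q ∧ Ioo p q ⊆ B := by
  have hden := Besicovitch.ae_tendsto_measure_inter_div (volume : Measure ℝ) B
  have : ∃ x0, Tendsto (fun r => volume (B ∩ Metric.closedBall x0 r) /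
      volume (Metric.closedBall x0 r)) (𝓝[>] 0) (𝓝 1) := by
    by_contra hcon
    push Not at hcon
    apply hm
    have h1 : ∀ᵐ x ∂(volume.restrict B), False := by
      filter_upwards [hden] with x hx
      exact hcon x hx
    rw [ae_restrict_iff' hB] at h1
    have h2 := ae_iff.1 h1
    simpa using h2
  obtain ⟨x0, hx0⟩ := this
  have h34 : ∀ᶠ r in 𝓝[>] (0 : ℝ), ENNReal.ofReal (3 / 4) < volume (B ∩ Metric.closedBall x0 r) /
      volume (Metric.closedBall x0 r) := by
    apply hx0.eventually_const_lt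
    rw [← ENNReal.ofReal_one]
    exact (ENNReal.ofReal_lt_ofReal_iff one_pos).2 (by norm_num)
  obtain ⟨r, hr, hr0⟩ := (h34.and self_mem_nhdsWithin).exists
  have hr0 : 0 < r := hr0
  rw [Real.volume_closedBall, ENNReal.lt_div_iff_mul_lt (by simp [hr0]) (by simp),
    ← ENNReal.ofReal_mul (by norm_num)] at hr
  refine ⟨2 * x0 - r / 4, 2 * x0 + r / 4, by linarith, fun z hz => ?_⟩
  obtain ⟨hz1, hz2⟩ := hz
  set B1 := B ∩ Metric.closedBall x0 r with hB1
  have hB1m : MeasurableSet B1 := hB.inter Metric.isClosed_closedBall.measurableSet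
  let B2 := (fun x => z - x) ⁻¹' B1
  have hB2m : MeasurableSet B2 := hB1m.preimage (by fun_prop)
  have hB2v : volume B2 = volume B1 :=
    (Measure.measurePreserving_sub_left volume z).measure_preimage hB1m.nullMeasurableSet
  have hne : (B1 ∩ B2).Nonempty := by
    by_contra hcon
    rw [not_nonempty_iff_eq_empty, ← disjoint_iff_inter_eq_empty] at hcon
    have h1 : volume (B1 ∪ B2) = volume B1 + volume B2 := measure_union hcon hB2m
    have h2 : B1 ∪ B2 ⊆ Metric.closedBall x0 (r + r / 4) := by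
      rintro x (hx | hx)
      · exact Metric.closedBall_subset_closedBall (by linarith) hx.2
      · have : z - x ∈ Metric.closedBall x0 r := hx.2
        rw [Real.closedBall_eq_Icc] at this ⊢
        constructor <;> linarith [this.1, this.2]
    have h3 := measure_mono (μ := volume) h2
    rw [h1, hB2v, Real.volume_closedBall] at h3
    have h4 : ENNReal.ofReal (3 / 4 * (2 * r)) + ENNReal.ofReal (3 / 4 * (2 * r)) ≤
        ENNReal.ofReal (2 * (r + r / 4)) := (add_le_add hr.le hr.le).trans h3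
    rw [← ENNReal.ofReal_add (by positivity) (by positivity),
      ENNReal.ofReal_le_ofReal_iff (by positivity)] at h4
    linarith
  obtain ⟨x, hx1, hx2⟩ := hne
  have := hadd _ hx1.1 _ hx2.1
  simpa using this

/-- ZFC: in a nontrivial partition all pieces are meagre and Lebesgue null. -/
theorem partA {ι : Type} {B : ι → Set ℝ} (h : IsSemiringPartition B) (hc : #ι ≠ 1) :
    (∀ i, IsMeagre (B i)) ∧ (∀ i, volume (B i) = 0) := by
  have key : ∀ i p q, p < q → ¬ Ioo p q ⊆ B i := by
    intro i p q hpq hI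
    apply hc
    rw [Cardinal.eq_one_iff_unique]
    exact ⟨⟨fun a b => (eq_of_interval h i hpq hI a).trans (eq_of_interval h i hpq hI b).symm⟩,
      ⟨i⟩⟩
  constructor
  · intro i
    by_contra hm
    obtain ⟨p, q, hpq, hI⟩ := interval_of_not_meagre (h.measurable i) (h.add_mem i) hm
    exact key i p q hpq hI
  · intro i
    by_contra hm
    obtain ⟨p, q, hpq, hI⟩ := interval_of_pos (h.measurable i) (h.add_mem i) hm
    exact key i p q hpq hI

/-- The number of pieces is at most the continuum. -/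
theorem card_le {ι : Type} {B : ι → Set ℝ} (h : IsSemiringPartition B) : #ι ≤ 𝔠 := by
  choose f hf using h.nonempty
  have hinj : Function.Injective f := by
    intro i j hij
    by_contra hne
    exact Set.disjoint_left.1 (h.disjoint hne) (hf i) (hij ▸ hf j)
  have := Cardinal.mk_le_of_injective hinj
  rwa [Cardinal.mk_real] at this

theorem exp_union {ι : Type} {B : ι → Set ℝ} (h : IsSemiringPartition B) :
    ⋃ i, Real.exp ⁻¹' (B i) = Set.univ := by
  rw [← preimage_iUnion, h.union]
  ext x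
  simp [Real.exp_pos]

theorem exp_isOpenMap : IsOpenMap Real.exp := by
  have h1 : IsOpenMap (fun x : ℝ => (Real.expOrderIso x : ℝ)) :=
    isOpen_Ioi.isOpenMap_subtype_val.comp Real.expOrderIso.toHomeomorph.isOpenMap
  exact h1

/-- `cov(M) = 𝔠` or `cov(N) = 𝔠` implies the dichotomy. -/
theorem partA' (hcov : CovMeagre ∨ CovNull) : Dichotomy := by
  intro ι B h
  by_cases hc : #ι = 1
  · exact Or.inl hc
  right
  obtain ⟨h1, h2⟩ := partA h hc
  apply le_antisymm (card_le h)
  rcases hcov with hcov | hcov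
  · apply hcov ι (fun i => Real.exp ⁻¹' (B i)) _ (exp_union h)
    intro i
    exact IsMeagre.preimage_of_isOpenMap Real.continuous_exp exp_isOpenMap (h1 i)
  · apply hcov ι (fun i => Real.exp ⁻¹' (B i)) _ (exp_union h)
    intro i
    have hsub : Real.exp ⁻¹' (B i) ⊆ Real.log '' (B i) := by
      intro x hx
      exact ⟨Real.exp x, hx, Real.log_exp x⟩
    refine measure_mono_null hsub ?_
    apply addHaar_image_eq_zero_of_differentiableOn_of_addHaar_eq_zero _ _ (h2 i)
    intro x hx
    have hx0 : x ∈ Ioi (0 : ℝ) := by rw [← h.union]; exact mem_iUnion.2 ⟨i, hx⟩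
    exact (Real.differentiableAt_log (ne_of_gt hx0)).differentiableWithinAt

end Pool.Agent.SemiringPieces
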