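import Mathlib

open MvPolynomial

namespace Pool.Agent.SemiringPieces

/-- Chain rule for a derivation of the reals and a polynomial with rational coefficients. -/
theorem derivation_aeval {σ : Type*} [Fintype σ] (E : Derivation ℚ ℝ ℝ) (v : σ → ℝ)
    (p : MvPolynomial σ ℚ) :
    E (aeval v p) = ∑ i, aeval v (pderiv i p) * E (v i) := by
  classical
  induction p using MvPolynomial.induction_on with
  | C a =>
    have : E ((algebraMap ℚ ℝ) a) = 0 := E.map_algebraMap a
    simpa using this
  | add p q hp hq => simp [hp, hq, add_mul, Finset.sum_add_distrib]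
  | mul_X p j hp =>
    simp only [map_mul, aeval_X, Derivation.leibniz, smul_eq_mul, hp, pderiv_X, map_add]
    simp only [Pi.single_apply, add_mul, Finset.sum_add_distrib, Finset.mul_sum]
    congr 1
    · rw [Finset.sum_eq_single j]
      · simp
      · intro b _ hb
        simp [Ne.symm hb]
      · simp
    · apply Finset.sum_congr rfl
      intro i _
      ring

theorem pderiv_none_optionEquivLeft_symm {κ : Type*}
    (Q : Polynomial (MvPolynomial κ ℚ)) :
    pderiv none ((optionEquivLeft ℚ κ).symm Q) =
      (optionEquivLeft ℚ κ).symm (Polynomial.derivative Q) := by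
  classical
  have hr : ∀ a : MvPolynomial κ ℚ, (optionEquivLeft ℚ κ).symm (Polynomial.C a) =
      rename some a := by
    intro a
    rw [AlgEquiv.symm_apply_eq]
    simp [optionEquivLeft_apply, aeval_rename]
    induction a using MvPolynomial.induction_on with
    | C a => simp
    | add p q hp hq => simp [hp, hq]
    | mul_X p j hp => simp [hp]
  have hz : ∀ a : MvPolynomial κ ℚ, pderiv none (rename (some : κ → Option κ) a) = 0 := by
    intro a
    induction a using MvPolynomial.induction_on with
    | C a => simp
    | add p q hp hq => simp [hp, hq]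
    | mul_X p j hp => simp [hp, pderiv_X]
  induction Q using Polynomial.induction_on' with
  | add p q hp hq => simp [hp, hq]
  | monomial n a =>
    rw [← Polynomial.C_mul_X_pow_eq_monomial]
    simp only [map_mul, map_pow, hr, optionEquivLeft_symm_X, Derivation.leibniz, hz,
      Derivation.leibniz_pow, smul_eq_mul, pderiv_X_self, Polynomial.derivative_mul,
      Polynomial.derivative_C, Polynomial.derivative_X_pow, map_add]
    simp

/-- A real number algebraic over `ℚ(c)` satisfies a separable polynomial relation. -/
theorem exists_relation {κ : Type*} (c : κ → ℝ) (r : ℝ)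
    (h : IsAlgebraic (Algebra.adjoin ℚ (Set.range c)) r) :
    ∃ p : MvPolynomial (Option κ) ℚ,
      aeval (fun o : Option κ => o.elim r c) p = 0 ∧
      aeval (fun o : Option κ => o.elim r c) (pderiv none p) ≠ 0 := by
  classical
  obtain ⟨P0, hP0, hP0r⟩ := h
  let A := Algebra.adjoin ℚ (Set.range c)
  let s : Set (Polynomial A) := {P | P ≠ 0 ∧ Polynomial.aeval r P = 0}
  have hne : s.Nonempty := ⟨P0, hP0, hP0r⟩
  obtain ⟨P, ⟨hP, hPr⟩, hmin⟩ : ∃ P ∈ s, ∀ P' ∈ s, P.natDegree ≤ P'.natDegree := by
    have := Function.argminOn_mem (fun P : Polynomial A => P.natDegree) s hne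
    exact ⟨_, this, fun P' hP' => Function.argminOn_le _ s hP'⟩
  have hder : Polynomial.aeval r (Polynomial.derivative P) ≠ 0 := by
    intro h0
    by_cases hd : Polynomial.derivative P = 0
    · have := Polynomial.derivative_eq_zero.1 hd
      rw [Polynomial.eq_C_of_natDegree_eq_zero this] at hPr hP
      simp only [Polynomial.aeval_C] at hPr
      apply hP
      have : P.coeff 0 = 0 := by
        apply Subtype.ext
        simpa using hPr
      rw [this, map_zero]
    · have h1 := hmin _ ⟨hd, h0⟩
      have h2 : (Polynomial.derivative P).natDegree < P.natDegree := by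
        apply Polynomial.natDegree_derivative_lt
        intro h3
        apply hd
        rw [Polynomial.eq_C_of_natDegree_eq_zero h3]
        simp
      omega
  -- lift coefficients
  let φ : MvPolynomial κ ℚ →ₐ[ℚ] A := aeval (fun k : κ => (⟨c k, Algebra.subset_adjoin ⟨k, rfl⟩⟩ : A))
  have hφv : ∀ q, ((φ q : A) : ℝ) = aeval c q := by
    intro q
    have : (A.val.comp φ) = aeval c := by
      ext k
      simp [φ]
    exact DFunLike.congr_fun this q
  have hφ : Function.Surjective φ := by
    rintro ⟨y, hy⟩
    have hy' : y ∈ (aeval c : MvPolynomial κ ℚ →ₐ[ℚ] ℝ).range := by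
      rw [← Algebra.adjoin_range_eq_range_aeval]; exact hy
    obtain ⟨q, hq⟩ := hy'
    refine ⟨q, Subtype.ext ?_⟩
    rw [hφv]
    exact hq
  obtain ⟨Q, hQ⟩ := Polynomial.map_surjective (φ : MvPolynomial κ ℚ →+* A) hφ P
  have key : ∀ Q : Polynomial (MvPolynomial κ ℚ),
      aeval (fun o : Option κ => o.elim r c) ((optionEquivLeft ℚ κ).symm Q) =
        Polynomial.aeval r (Q.map (φ : MvPolynomial κ ℚ →+* A)) := by
    intro Q
    induction Q using Polynomial.induction_on' with
    | add p q hp hq => simp [hp, hq]
    | monomial n a =>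
      rw [← Polynomial.C_mul_X_pow_eq_monomial]
      have hr : (optionEquivLeft ℚ κ).symm (Polynomial.C a) = rename some a := by
        rw [AlgEquiv.symm_apply_eq]
        induction a using MvPolynomial.induction_on with
        | C a => simp
        | add p q hp hq => simp [hp, hq]
        | mul_X p j hp => simp [hp]
      simp only [map_mul, map_pow, optionEquivLeft_symm_X, hr, aeval_rename, aeval_X,
        Polynomial.map_mul, Polynomial.map_pow, Polynomial.map_X, Polynomial.map_C,
        Polynomial.aeval_C, Polynomial.aeval_X]
      have : ((φ a : A) : ℝ) = aeval c a := hφv a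
      have h2 : (algebraMap A ℝ) ((φ : MvPolynomial κ ℚ →+* A) a) = aeval c a := this
      have h3 : ((fun o : Option κ => o.elim r c) ∘ some) = c := by
        ext k; rfl
      rw [h2, h3]
      rfl
  refine ⟨(optionEquivLeft ℚ κ).symm Q, ?_, ?_⟩
  · rw [key, hQ, hPr]
  · rw [pderiv_none_optionEquivLeft_symm, key, ← Polynomial.derivative_map, hQ]
    exact hder

end Pool.Agent.SemiringPieces
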