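import Pool.Agent.SemiringPieces.Defs
import Pool.Agent.SemiringPieces.Deriv
import Pool.Agent.SemiringPieces.Poly

open Cardinal Set MvPolynomial

namespace Pool.Agent.SemiringPieces

section

variable {ι : Type} [LinearOrder ι] {C : ι → Set ℝ}

/-- Priority of a generator: late blocks come first, inside a block smaller reals come first. -/
def key (t : Σ i, C i) : Lex (ιᵒᵈ × ℝ) := toLex (OrderDual.toDual t.1, (t.2 : ℝ))

theorem key_lt {s t : Σ i, C i} :
    key s < key t ↔ t.1 < s.1 ∨ (s.1 = t.1 ∧ (s.2 : ℝ) < (t.2 : ℝ)) := by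
  unfold key
  rw [Prod.Lex.toLex_lt_toLex]
  simp

omit [LinearOrder ι] in
theorem key_injective : Function.Injective (key : (Σ i, C i) → _) := by
  rintro ⟨i, a, ha⟩ ⟨j, b, hb⟩ h
  have h' := (toLex.injective h)
  simp only [Prod.mk.injEq, OrderDual.toDual_inj] at h'
  obtain ⟨h1, h2⟩ := h'
  subst h1
  subst h2
  rfl

variable (δ : (Σ i, C i) → Derivation ℚ ℝ ℝ)

/-- The piece of block `i` and sign `ε`. -/
def Piece (i : ι) (ε : ℝ) : Set ℝ :=
  {r | 0 < r ∧ ∃ t : Σ i, C i, t.1 = i ∧ 0 < ε * δ t r ∧ ∀ s, key s < key t → δ s r = 0}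

/-- The piece of positive reals killed by all the derivations. -/
def Piece0 : Set ℝ := {r | 0 < r ∧ ∀ t, δ t r = 0}

theorem piece_add {i : ι} {ε : ℝ} {x y : ℝ} (hx : x ∈ Piece δ i ε) (hy : y ∈ Piece δ i ε) :
    x + y ∈ Piece δ i ε ∧ x * y ∈ Piece δ i ε := by
  wlog hle : key (hx.2.choose) ≤ key (hy.2.choose) generalizing x y
  · have := this hy hx (le_of_not_ge hle)
    rwa [add_comm, mul_comm] 
  obtain ⟨ht1, ht2, ht3⟩ := hx.2.choose_spec
  obtain ⟨hu1, hu2, hu3⟩ := hy.2.choose_spec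
  set t := hx.2.choose
  set u := hy.2.choose
  have hx0 := hx.1
  have hy0 := hy.1
  have hyt : 0 ≤ ε * δ t y := by
    rcases hle.lt_or_eq with h | h
    · rw [hu3 t h, mul_zero]
    · have := key_injective h
      rw [this]; exact hu2.le
  refine ⟨⟨by positivity, t, ht1, ?_, ?_⟩, ⟨by positivity, t, ht1, ?_, ?_⟩⟩
  · rw [map_add, mul_add]
    exact add_pos_of_pos_of_nonneg ht2 hyt
  · intro s hs
    rw [map_add, ht3 s hs, hu3 s (hs.trans_le hle), add_zero]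
  · rw [Derivation.leibniz, smul_eq_mul, smul_eq_mul, mul_add]
    have h1 : ε * (x * δ t y) = x * (ε * δ t y) := by ring
    have h2 : ε * (y * δ t x) = y * (ε * δ t x) := by ring
    rw [h1, h2]
    have := mul_pos hy0 ht2
    have := mul_nonneg hx0.le hyt
    linarith
  · intro s hs
    rw [Derivation.leibniz, ht3 s hs, hu3 s (hs.trans_le hle)]
    simp

omit [LinearOrder ι] in
theorem piece0_add {x y : ℝ} (hx : x ∈ Piece0 δ) (hy : y ∈ Piece0 δ) :
    x + y ∈ Piece0 δ ∧ x * y ∈ Piece0 δ := by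
  obtain ⟨hx0, hx⟩ := hx
  obtain ⟨hy0, hy⟩ := hy
  exact ⟨⟨by positivity, fun t => by rw [map_add, hx, hy, add_zero]⟩,
    ⟨by positivity, fun t => by rw [Derivation.leibniz, hx, hy]; simp⟩⟩

theorem piece_disjoint {i j : ι} {ε ε' : ℝ} {x : ℝ} (hx : x ∈ Piece δ i ε)
    (hy : x ∈ Piece δ j ε') : i = j ∧ 0 < ε * ε' := by
  obtain ⟨-, t, ht1, ht2, ht3⟩ := hx
  obtain ⟨-, u, hu1, hu2, hu3⟩ := hy
  rcases lt_trichotomy (key t) (key u) with h | h | h
  · rw [hu3 t h] at ht2; simp at ht2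
  · have := key_injective h
    subst this
    refine ⟨ht1.symm.trans hu1, ?_⟩
    have h3 := mul_pos ht2 hu2
    have h4 : ε * δ t x * (ε' * δ t x) = (ε * ε') * (δ t x) ^ 2 := by ring
    rw [h4] at h3
    exact (pos_iff_pos_of_mul_pos h3).2 (by
      have : δ t x ≠ 0 := by rintro h; simp [h] at ht2
      positivity)
  · rw [ht3 u h] at hu2; simp at hu2

theorem piece_disjoint0 {i : ι} {ε : ℝ} {x : ℝ} (hx : x ∈ Piece δ i ε)
    (hy : x ∈ Piece0 δ) : False := by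
  obtain ⟨-, t, ht1, ht2, ht3⟩ := hx
  rw [hy.2 t] at ht2; simp at ht2

theorem piece_cover (hfin : ∀ r, {t | δ t r ≠ 0}.Finite) {x : ℝ} (hx : 0 < x) :
    x ∈ Piece0 δ ∨ ∃ i, x ∈ Piece δ i 1 ∨ x ∈ Piece δ i (-1) := by
  classical
  rcases ({t | δ t x ≠ 0}).eq_empty_or_nonempty with h | h
  · left
    refine ⟨hx, fun t => ?_⟩
    by_contra h'
    have : t ∈ {t | δ t x ≠ 0} := h'
    rw [h] at this
    exact this
  · right
    obtain ⟨t, ht, hmin⟩ := Set.exists_min_image _ key (hfin x) h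
    have hz : ∀ s, key s < key t → δ s x = 0 := by
      intro s hs
      by_contra h'
      exact absurd (hmin s h') (not_le.2 hs)
    refine ⟨t.1, ?_⟩
    rcases lt_or_gt_of_ne (show δ t x ≠ 0 from ht) with h1 | h1
    · right
      exact ⟨hx, t, rfl, by simpa using h1, hz⟩
    · left
      exact ⟨hx, t, rfl, by simpa using h1, hz⟩

theorem piece_nonempty (h1 : ∀ t, δ t (t.2 : ℝ) = 1)
    (h2 : ∀ s t, s ≠ t → δ s ((t.2 : ℝ)) = 0) {i : ι} (hi : (C i).Nonempty) {ε : ℝ}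
    (hε : ε = 1 ∨ ε = -1) : (Piece δ i ε).Nonempty := by
  obtain ⟨c, hc⟩ := hi
  obtain ⟨N, hN⟩ := exists_nat_gt (-(ε * c))
  have hεd : ∀ s, δ s ((N : ℝ) + ε * c) = ε * δ s c := by
    intro s
    have hn : δ s ((N : ℕ) : ℝ) = 0 := (δ s).map_natCast N
    rcases hε with rfl | rfl
    · rw [map_add, hn]; simp
    · rw [map_add, hn]; simp
  refine ⟨N + ε * c, by linarith, ⟨i, ⟨c, hc⟩⟩, rfl, ?_, ?_⟩
  · rw [hεd, h1 ⟨i, ⟨c, hc⟩⟩]
    rcases hε with rfl | rfl <;> norm_num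
  · intro s hs
    rw [hεd, h2 s ⟨i, ⟨c, hc⟩⟩ (by rintro rfl; exact lt_irrefl _ hs), mul_zero]

end

end Pool.Agent.SemiringPieces
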